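import Pool.Agent.helper94.AP.SpecM
import Pool.Agent.helper47.RA.Num

set_option autoImplicit false

namespace Pool.Agent.AP

open Finset NumberField Pool.Agent.helper3.FT Pool.Agent.helper47.RA Pool.Agent.T5

theorem ERR_LL (w : ℕ) : 1 ≤ LL w := by
  unfold LL
  have h : 0 < ∏ q ∈ (pr w).erase 2, q ^ 2 := by
    refine Finset.prod_pos fun q hq => ?_
    have h1 : q.Prime := (Finset.mem_filter.1 (Finset.mem_of_mem_erase hq)).2
    exact pow_pos h1.pos 2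
  omega

theorem ERR_PP (w : ℕ) : PP w ≠ 0 := by
  unfold PP
  refine Finset.prod_ne_zero_iff.2 fun q hq => ?_
  exact (Finset.mem_filter.1 hq).2.ne_zero

theorem ERR_VV {p r : ℕ} {N Y : ℝ} (δ : ℝ) (hp : 5 ≤ p) (hr : 1 ≤ r) (hN : 1 ≤ N) (hY : 1 ≤ Y)
    (hYN : Y ≤ N ^ (2 / (p : ℝ) - δ)) : VV p N r (Y / r) ≤ 2 * N ^ (1 / 2 - p * δ / 2) := by
  have hN0 : 0 < N := by linarith
  have hp0 : (0 : ℝ) < p := by
    have : 0 < p := by omega
    exact_mod_cast this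
  have hr0 : (1 : ℝ) ≤ r := by exact_mod_cast hr
  have h1 : (r : ℝ) * (Y / r) ^ p ≤ Y ^ p := by
    obtain ⟨k, rfl⟩ : ∃ k, p = k + 1 := ⟨p - 1, by omega⟩
    rw [div_pow, pow_succ (r : ℝ) k]
    have h2 : (1 : ℝ) ≤ (r : ℝ) ^ k := one_le_pow₀ hr0
    have h3 : (r : ℝ) * (Y ^ (k + 1) / ((r : ℝ) ^ k * r)) = Y ^ (k + 1) / (r : ℝ) ^ k := by
      field_simp
    rw [h3]
    exact div_le_self (by positivity) h2
  have h4 : Y ^ p ≤ N ^ (2 - p * δ) := by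
    have h5 : Y ^ p ≤ (N ^ (2 / (p : ℝ) - δ)) ^ p := pow_le_pow_left₀ (by linarith) hYN p
    have h6 : (N ^ (2 / (p : ℝ) - δ)) ^ p = N ^ (2 - p * δ) := by
      rw [← Real.rpow_natCast, ← Real.rpow_mul hN0.le]
      congr 1
      field_simp
    rwa [h6] at h5
  unfold VV
  refine Real.sqrt_le_iff.2 ⟨by positivity, ?_⟩
  have h7 : (2 * N ^ (1 / 2 - p * δ / 2)) ^ 2 = 4 * N ^ (1 - p * δ) := by
    rw [mul_pow, ← Real.rpow_natCast (N ^ (1 / 2 - p * δ / 2)), ← Real.rpow_mul hN0.le]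
    have h8 : (1 / 2 - p * δ / 2) * ((2 : ℕ) : ℝ) = 1 - p * δ := by
      push_cast
      ring
    rw [h8]
    norm_num
  rw [h7, div_le_iff₀ hN0]
  have h9 : N ^ (1 - p * δ) * N = N ^ (2 - p * δ) := by
    rw [← Real.rpow_add_one hN0.ne']
    congr 1
    ring
  have h10 : 4 * (r : ℝ) * (Y / r) ^ p = 4 * ((r : ℝ) * (Y / r) ^ p) := by ring
  rw [h10, mul_assoc 4 (N ^ (1 - p * δ)), h9]
  linarith

theorem ERR (hKAP : KAP_stmt) : ERR_stmt := by
  intro p w g hp hw hg δ ε hδ hε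
  obtain ⟨C, hC, hτ⟩ := card_divisors_le ((p : ℝ) * δ / 4) (by
    have : (0 : ℝ) < p := by
      have : 0 < p := by omega
      exact_mod_cast this
    positivity)
  have hp0 : (0 : ℝ) < p := by
    have : 0 < p := by omega
    exact_mod_cast this
  set L : ℝ := (LL w : ℝ) with hL
  have hL1 : 1 ≤ L := by
    have h := ERR_LL w
    rw [hL]
    exact_mod_cast h
  -- the maximum of `g`
  obtain ⟨G, hG0, hG⟩ : ∃ G : ℝ, 0 ≤ G ∧ ∀ r ∈ (PP w).divisors, ∀ a < LL w, ∀ b < LL w, g r a b ≤ G := by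
    refine ⟨∑ r ∈ (PP w).divisors, ∑ a ∈ range (LL w), ∑ b ∈ range (LL w), g r a b, ?_, ?_⟩
    · exact Finset.sum_nonneg fun r _ => Finset.sum_nonneg fun a _ => Finset.sum_nonneg fun b _ => hg.pos r a b
    · intro r hr a ha b hb
      calc g r a b ≤ ∑ b ∈ range (LL w), g r a b :=
            Finset.single_le_sum (f := fun b => g r a b) (fun b _ => hg.pos r a b) (Finset.mem_range.2 hb)
        _ ≤ ∑ a ∈ range (LL w), ∑ b ∈ range (LL w), g r a b :=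
            Finset.single_le_sum (f := fun a => ∑ b ∈ range (LL w), g r a b) (fun a _ => Finset.sum_nonneg fun b _ => hg.pos r a b)
              (Finset.mem_range.2 ha)
        _ ≤ _ := Finset.single_le_sum (f := fun r => ∑ a ∈ range (LL w), ∑ b ∈ range (LL w), g r a b)
            (fun r _ => Finset.sum_nonneg fun a _ => Finset.sum_nonneg fun b _ => hg.pos r a b) hr
  set D : ℝ := ((PP w).divisors.card : ℝ) with hD
  set e : ℝ := (p : ℝ) * δ / 4 with he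
  have he0 : 0 < e := by positivity
  set M : ℝ := D * (4 * (2 * (L * G * (C * 4 ^ e)))) with hM
  have hM0 : 0 ≤ M := by positivity
  obtain ⟨N₀, hN₀, hN₀'⟩ : ∃ N₀ : ℝ, 1 ≤ N₀ ∧ ∀ N : ℝ, N₀ ≤ N → M * N ^ (-e) ≤ ε := by
    have h1 : Filter.Tendsto (fun N : ℝ => M * N ^ (-e)) Filter.atTop (nhds (M * 0)) :=
      (tendsto_rpow_neg_atTop he0).const_mul M
    rw [mul_zero] at h1
    have h2 := (h1.eventually (gt_mem_nhds hε)).exists_forall_of_atTop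
    obtain ⟨a, ha⟩ := h2
    exact ⟨max a 1, le_max_right _ _, fun N hN => (ha N (le_trans (le_max_left _ _) hN)).le⟩
  refine ⟨N₀, ?_⟩
  intro N Y hN hY hYN
  have hN1 : 1 ≤ N := hN₀.trans hN
  have hN0 : 0 < N := by linarith
  -- one term
  have hterm : ∀ r ∈ (PP w).divisors, ∀ z ∈ Ioc ⌊Y / r / 2⌋₊ ⌊Y / r⌋₊, ∀ y ∈ Ioc 0 ⌊2 * VV p N r (Y / r)⌋₊,
      (if Nat.Coprime y (r * z) then 2 * (NC w p r z y : ℝ) else 0) ≤ 2 * (L * G * (C * 4 ^ e)) * N ^ e := by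
    intro r hr z hz y hy
    have hr1 : 1 ≤ r := Nat.pos_of_mem_divisors hr
    have hy1 : 1 ≤ y := (Finset.mem_Ioc.1 hy).1
    have hz1 : 1 ≤ z := by have := (Finset.mem_Ioc.1 hz).1; omega
    have hV := ERR_VV δ hp hr1 hN1 hY hYN
    have hyN : (y : ℝ) ≤ 4 * N := by
      have h1 : (y : ℝ) ≤ 2 * VV p N r (Y / r) := by
        have h2 : y ≤ ⌊2 * VV p N r (Y / r)⌋₊ := (Finset.mem_Ioc.1 hy).2
        have h3 : (0 : ℝ) ≤ 2 * VV p N r (Y / r) := by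
          unfold VV
          positivity
        exact (Nat.le_floor_iff h3).1 h2
      have h4 : N ^ (1 / 2 - p * δ / 2) ≤ N ^ (1 : ℝ) := Real.rpow_le_rpow_of_exponent_le hN1 (by nlinarith [mul_pos hp0 hδ])
      rw [Real.rpow_one] at h4
      linarith
    have hpos : 0 ≤ 2 * (L * G * (C * 4 ^ e)) * N ^ e := by positivity
    split_ifs with hco
    · have hnc := hg.nc r z y (Nat.dvd_of_mem_divisors hr) hz1 hy1 hco
      have hk := hKAP.1 w y ((r * z : ℕ) : ℤ) hy1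
      have hk1 : (kap w y ((r * z : ℕ) : ℤ) : ℝ) ≤ (y.divisors.card : ℝ) := by exact_mod_cast hk.2
      have hk0 : (0 : ℝ) ≤ (kap w y ((r * z : ℕ) : ℤ) : ℝ) := by exact_mod_cast hk.1
      have hgG : g r (z % LL w) (y % LL w) ≤ G := hG r hr _ (Nat.mod_lt _ (ERR_LL w)) _ (Nat.mod_lt _ (ERR_LL w))
      have hg0 := hg.pos r (z % LL w) (y % LL w)
      have ht := hτ y hy1
      have hye : (y : ℝ) ^ e ≤ 4 ^ e * N ^ e := by
        rw [← Real.mul_rpow (by norm_num) hN0.le]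
        exact Real.rpow_le_rpow (by positivity) hyN he0.le
      have h5 : (kap w y ((r * z : ℕ) : ℤ) : ℝ) ≤ C * (4 ^ e * N ^ e) := by
        calc (kap w y ((r * z : ℕ) : ℤ) : ℝ) ≤ (y.divisors.card : ℝ) := hk1
          _ ≤ C * (y : ℝ) ^ e := ht
          _ ≤ C * (4 ^ e * N ^ e) := mul_le_mul_of_nonneg_left hye (by linarith)
      rw [hnc]
      have h6 : L * g r (z % LL w) (y % LL w) * (kap w y ((r * z : ℕ) : ℤ) : ℝ) ≤ L * G * (C * (4 ^ e * N ^ e)) := by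
        refine mul_le_mul (mul_le_mul_of_nonneg_left hgG (by linarith)) h5 hk0 (by positivity)
      calc 2 * (L * g r (z % LL w) (y % LL w) * (kap w y ((r * z : ℕ) : ℤ) : ℝ)) ≤ 2 * (L * G * (C * (4 ^ e * N ^ e))) := by linarith
        _ = 2 * (L * G * (C * 4 ^ e)) * N ^ e := by ring
    · exact hpos
  set T : ℝ := 2 * (L * G * (C * 4 ^ e)) * N ^ e with hT
  have hT0 : 0 ≤ T := by positivity
  have hsum : ∀ r ∈ (PP w).divisors, ∑ z ∈ Ioc ⌊Y / r / 2⌋₊ ⌊Y / r⌋₊, ∑ y ∈ Ioc 0 ⌊2 * VV p N r (Y / r)⌋₊,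
      (if Nat.Coprime y (r * z) then 2 * (NC w p r z y : ℝ) else 0) ≤ Y * ((4 * N ^ (1 / 2 - p * δ / 2)) * T) := by
    intro r hr
    have hr1 : 1 ≤ r := Nat.pos_of_mem_divisors hr
    have hr0 : (1 : ℝ) ≤ r := by exact_mod_cast hr1
    have hV := ERR_VV δ hp hr1 hN1 hY hYN
    have h1 : ∀ z ∈ Ioc ⌊Y / r / 2⌋₊ ⌊Y / r⌋₊, ∑ y ∈ Ioc 0 ⌊2 * VV p N r (Y / r)⌋₊,
        (if Nat.Coprime y (r * z) then 2 * (NC w p r z y : ℝ) else 0) ≤ (4 * N ^ (1 / 2 - p * δ / 2)) * T := by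
      intro z hz
      refine (Finset.sum_le_sum fun y hy => hterm r hr z hz y hy).trans ?_
      rw [Finset.sum_const, nsmul_eq_mul, Nat.card_Ioc]
      refine mul_le_mul_of_nonneg_right ?_ hT0
      have h3 : (0 : ℝ) ≤ 2 * VV p N r (Y / r) := by
        unfold VV
        positivity
      have h4 := Nat.floor_le h3
      simp only [Nat.sub_zero]
      linarith
    refine (Finset.sum_le_sum h1).trans ?_
    rw [Finset.sum_const, nsmul_eq_mul, Nat.card_Ioc]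
    refine mul_le_mul_of_nonneg_right ?_ (by positivity)
    have h5 : ((⌊Y / r⌋₊ - ⌊Y / r / 2⌋₊ : ℕ) : ℝ) ≤ (⌊Y / r⌋₊ : ℝ) := by exact_mod_cast Nat.sub_le _ _
    have h6 : (⌊Y / r⌋₊ : ℝ) ≤ Y / r := Nat.floor_le (by positivity)
    have h7 : Y / r ≤ Y := div_le_self (by linarith) hr0
    linarith
  refine (Finset.sum_le_sum hsum).trans ?_
  rw [Finset.sum_const, nsmul_eq_mul]
  have h8 : N ^ (1 / 2 - p * δ / 2) * N ^ e = N ^ (1 / 2 : ℝ) * N ^ (-e) := by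
    rw [← Real.rpow_add hN0, ← Real.rpow_add hN0]
    congr 1
    rw [he]
    ring
  have h9 : D * (Y * (4 * N ^ (1 / 2 - p * δ / 2) * T)) = (M * N ^ (-e)) * (Y * √N) := by
    rw [hT, hM, Real.sqrt_eq_rpow]
    calc D * (Y * (4 * N ^ (1 / 2 - p * δ / 2) * (2 * (L * G * (C * 4 ^ e)) * N ^ e)))
        = D * Y * 4 * (2 * (L * G * (C * 4 ^ e))) * (N ^ (1 / 2 - p * δ / 2) * N ^ e) := by ring
      _ = D * Y * 4 * (2 * (L * G * (C * 4 ^ e))) * (N ^ (1 / 2 : ℝ) * N ^ (-e)) := by rw [h8]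
      _ = _ := by ring
  rw [h9]
  exact mul_le_mul_of_nonneg_right (hN₀' N hN) (by positivity)

end Pool.Agent.AP
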