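import Pool.Agent.helper94.AP.SpecM

set_option autoImplicit false

namespace Pool.Agent.AP

open Finset NumberField Pool.Agent.helper3.FT Pool.Agent.helper47.RA Pool.Agent.T5

theorem SLI_loc {w p : ℕ} {t : Q4} (h : IsFund (dp p t)) : Loc w p t := by
  refine ⟨?_, fun q hq => ?_⟩
  · rcases h with ⟨h1, -, -⟩ | ⟨m, hm, -, -⟩
    · exact Or.inr h1
    · left
      rw [hm]
      omega
  · have hqp : q.Prime := (Finset.mem_filter.1 hq).2
    unfold Pfund
    split_ifs with h2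
    · rcases h with ⟨h1, -, -⟩ | ⟨m, hm, hm4, -⟩
      · omega
      · rw [hm]
        omega
    · intro hd
      rcases h.sq_dvd hd with hu | ⟨m, -, -, hb⟩
      · have h3 := Int.isUnit_iff.1 hu
        have h4 := hqp.two_le
        omega
      · have h4 := hqp.two_le
        rcases hb with hb | hb
        · exact h2 (by exact_mod_cast hb)
        · omega

theorem SLI_PP {w r : ℕ} (hr : Squarefree r) (h : ¬ r ∣ PP w) : w < r := by
  by_contra hcon
  push Not at hcon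
  apply h
  have hr0 : r ≠ 0 := hr.ne_zero
  rw [← Nat.prod_primeFactors_of_squarefree hr]
  unfold PP
  refine Finset.prod_dvd_prod_of_subset _ _ _ fun q hq => ?_
  have hqp := Nat.prime_of_mem_primeFactors hq
  have hqr := Nat.le_of_dvd (Nat.pos_of_ne_zero hr0) (Nat.dvd_of_mem_primeFactors hq)
  exact Finset.mem_filter.2 ⟨Finset.mem_range.2 (by omega), hqp⟩

theorem SLI : SLI_stmt := by
  intro hSEU p β hp hp5 hβ hBF hAE hASY hTR hSQ δ hδ ε hε
  obtain ⟨C1, hC1, hA⟩ := hASY δ hδ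
  obtain ⟨C2, hC2, hT⟩ := hTR δ hδ
  obtain ⟨C3, hC3, hS⟩ := hSQ δ hδ
  have hp0 : (5 : ℝ) ≤ p := by exact_mod_cast hp5
  -- the choice of `w`
  obtain ⟨w, hw2, hwC, hwP⟩ : ∃ w : ℕ, 2 ≤ w ∧ (C1 + C2 + C3) / w ≤ ε / 4 ∧
      |Cst * (∏ q ∈ pr w, (1 - 1 / (q : ℝ) ^ 2) ^ 2) - c0| ≤ ε / 4 := by
    have h1 : Filter.Tendsto (fun w : ℕ => Cst * (∏ q ∈ pr w, (1 - 1 / (q : ℝ) ^ 2)) ^ 2) Filter.atTop
        (nhds (Cst * (6 / Real.pi ^ 2) ^ 2)) := (Filter.Tendsto.pow hSEU 2).const_mul Cst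
    have h2 : Cst * (6 / Real.pi ^ 2) ^ 2 = c0 := rfl
    rw [h2] at h1
    have e1 : ∀ᶠ w : ℕ in Filter.atTop, |Cst * (∏ q ∈ pr w, (1 - 1 / (q : ℝ) ^ 2)) ^ 2 - c0| ≤ ε / 4 := by
      filter_upwards [(Metric.tendsto_nhds.1 h1) (ε / 4) (by positivity)] with w hw
      rw [Real.dist_eq] at hw
      exact hw.le
    have e2 : ∀ᶠ w : ℕ in Filter.atTop, (C1 + C2 + C3) / (w : ℝ) < ε / 4 :=
      (tendsto_const_div_atTop_nhds_zero_nat (C1 + C2 + C3)).eventually (gt_mem_nhds (by positivity))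
    obtain ⟨w, h3, h4, h5⟩ := ((Filter.eventually_ge_atTop 2).and (e1.and e2)).exists
    refine ⟨w, h3, h5.le, ?_⟩
    rw [Finset.prod_pow]
    exact h4
  obtain ⟨N1, hN1⟩ := hA w hw2 (ε / 12) (by positivity)
  obtain ⟨N2, hN2⟩ := hT w hw2 (ε / 12) (by positivity)
  obtain ⟨N3, hN3⟩ := hS w hw2 (ε / 12) (by positivity)
  refine ⟨max (max N1 N2) (max N3 (max 33 (2 ^ (1 / δ)))), fun N Y hN hY hY2 => ?_⟩
  have hNa : N1 ≤ N := (le_max_left _ _).trans ((le_max_left _ _).trans hN)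
  have hNb : N2 ≤ N := (le_max_right _ _).trans ((le_max_left _ _).trans hN)
  have hNc : N3 ≤ N := (le_max_left _ _).trans ((le_max_right _ _).trans hN)
  have hNd : (33 : ℝ) ≤ N := (le_max_left _ _).trans ((le_max_right _ _).trans ((le_max_right _ _).trans hN))
  have hNe : (2 : ℝ) ^ (1 / δ) ≤ N := (le_max_right _ _).trans ((le_max_right _ _).trans ((le_max_right _ _).trans hN))
  have hN0 : 0 < N := by linarith
  have hN1' : 1 ≤ N := by linarith
  have hYp : Y ≤ N ^ (2 / (p : ℝ) - δ) := hY2.trans (Real.rpow_le_rpow_of_exponent_le hN1' (by linarith))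
  have hY2' : 2 ≤ Y := by
    have h1 : N ^ δ ≤ N ^ (1 / (p : ℝ) + δ) := Real.rpow_le_rpow_of_exponent_le hN1' (by
      have : (0 : ℝ) ≤ 1 / p := by positivity
      linarith)
    have h2 : (2 : ℝ) ≤ N ^ δ := by
      have h3 : ((2 : ℝ) ^ (1 / δ)) ^ δ ≤ N ^ δ := Real.rpow_le_rpow (by positivity) hNe hδ.le
      rwa [← Real.rpow_mul (by norm_num), one_div_mul_cancel hδ.ne', Real.rpow_one] at h3
    linarith
  have hY8 : 8 * Y < N := by
    have h1 : Y ≤ N ^ (2 / 5 : ℝ) := hYp.trans (Real.rpow_le_rpow_of_exponent_le hN1' (by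
      have : 2 / (p : ℝ) ≤ 2 / 5 := div_le_div_of_nonneg_left (by norm_num) (by norm_num) hp0
      linarith))
    have h2 : (8 : ℝ) < N ^ (3 / 5 : ℝ) := by
      have h3 : (32 : ℝ) ^ (3 / 5 : ℝ) = 8 := by
        have h4 : (32 : ℝ) = 2 ^ (5 : ℝ) := by norm_num
        rw [h4, ← Real.rpow_mul (by norm_num)]
        norm_num
      rw [← h3]
      exact Real.rpow_lt_rpow (by norm_num) (by linarith) (by norm_num)
    have h5 : N ^ (3 / 5 : ℝ) * N ^ (2 / 5 : ℝ) = N := by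
      rw [← Real.rpow_add hN0]
      norm_num
    have h6 : 0 < N ^ (2 / 5 : ℝ) := by positivity
    nlinarith
  have hAEe := hAE N Y (by linarith) hY2' hY8
  have a1 := hN1 N Y hNa hY hYp
  have a2 := hN2 N Y hNb hY hYp
  have a3 := hN3 N Y hNc hY hY2
  have hfin : {t : Q4 | Bas p N Y t}.Finite := hBF p N Y hN0
  set S1 : Set Q4 := {t | Bas p N Y t ∧ IsFund (dp p t)} with hS1
  set S2 : Set Q4 := {t | Bas p N Y t ∧ t.1 ∣ PP w ∧ Loc w p t} with hS2
  set S3 : Set Q4 := {t | Bas p N Y t ∧ w < t.1} with hS3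
  set S4 : Set Q4 := {t | Bas p N Y t ∧ t.1 ∣ PP w ∧ Loc w p t ∧ ¬ IsFund (dp p t)} with hS4
  have f1 : S1.Finite := hfin.subset fun t ht => ht.1
  have f2 : S2.Finite := hfin.subset fun t ht => ht.1
  have f3 : S3.Finite := hfin.subset fun t ht => ht.1
  have f4 : S4.Finite := hfin.subset fun t ht => ht.1
  have s1 : S1 ⊆ S2 ∪ S3 := by
    rintro t ⟨h1, h2⟩
    by_cases h3 : t.1 ∣ PP w
    · exact Or.inl ⟨h1, h3, SLI_loc h2⟩
    · exact Or.inr ⟨h1, SLI_PP h1.r1 h3⟩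
  have s2 : S2 ⊆ S1 ∪ S4 := by
    rintro t ⟨h1, h2, h3⟩
    by_cases h4 : IsFund (dp p t)
    · exact Or.inl ⟨h1, h4⟩
    · exact Or.inr ⟨h1, h2, h3, h4⟩
  have c1 : (S1.ncard : ℝ) ≤ S2.ncard + S3.ncard := by
    exact_mod_cast (Set.ncard_le_ncard s1 (f2.union f3)).trans (Set.ncard_union_le _ _)
  have c2 : (S2.ncard : ℝ) ≤ S1.ncard + S4.ncard := by
    exact_mod_cast (Set.ncard_le_ncard s2 (f1.union f4)).trans (Set.ncard_union_le _ _)
  rw [hAEe]
  have hP : 0 ≤ Y * √N := by positivity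
  set P : ℝ := Y * √N with hPdef
  set A : ℝ := Cst * (∏ q ∈ pr w, (1 - 1 / (q : ℝ) ^ 2) ^ 2) with hAdef
  have b1 : |A * P - c0 * P| ≤ ε / 4 * P := by
    rw [← sub_mul, abs_mul, abs_of_nonneg hP]
    exact mul_le_mul_of_nonneg_right hwP hP
  have hw0 : (0 : ℝ) < w := by
    have : 0 < w := by omega
    exact_mod_cast this
  have b2 : (C1 / w + ε / 12) * P + ((C2 / w + ε / 12) * P + (C3 / w + ε / 12) * P) ≤ ε / 2 * P := by
    have h1 : C1 / w + C2 / w + C3 / w ≤ ε / 4 := by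
      have h2 : C1 / w + C2 / w + C3 / w = (C1 + C2 + C3) / w := by ring
      rw [h2]
      exact hwC
    nlinarith
  have hz2 : 0 ≤ (C2 / w + ε / 12) * P := by positivity
  have hz3 : 0 ≤ (C3 / w + ε / 12) * P := by positivity
  rw [abs_le] at a1 b1 ⊢
  constructor
  · nlinarith [a1.1, b1.1]
  · nlinarith [a1.2, b1.2]

end Pool.Agent.AP
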